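import Pool.Agent.Run7.h408.EF.Stm

/-!
# Project EF (helper408): pieces StLinA and StLinB (helper888)

Linear algebra in the plane: comparison of two inner products, and the first order change of the
area density and of the Dirichlet density.
-/

set_option autoImplicit false

open Pool.Agent.Y262.QE Pool.Agent.Run7.h408.EF

noncomputable section

namespace Pool.Agent.Run7.h888.EF

lemma nsq (z : ℂ) : ‖z‖ ^ 2 = z.re ^ 2 + z.im ^ 2 := by
  rw [Complex.sq_norm, Complex.normSq_apply]; ring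

lemma inv_r (A : ℂ →L[ℝ] ℂ) (h : A.det ≠ 0) (w : ℂ) : A (A.inverse w) = w := by
  obtain ⟨e, he⟩ : ∃ e : ℂ ≃L[ℝ] ℂ, (e : ℂ →L[ℝ] ℂ) = A :=
    ⟨A.toContinuousLinearEquivOfDetNeZero h, A.coe_toContinuousLinearEquivOfDetNeZero h⟩
  rw [← he, ContinuousLinearMap.inverse_equiv]
  simp

lemma inv_l (A : ℂ →L[ℝ] ℂ) (h : A.det ≠ 0) (v : ℂ) : A.inverse (A v) = v := by
  obtain ⟨e, he⟩ : ∃ e : ℂ ≃L[ℝ] ℂ, (e : ℂ →L[ℝ] ℂ) = A :=
    ⟨A.toContinuousLinearEquivOfDetNeZero h, A.coe_toContinuousLinearEquivOfDetNeZero h⟩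
  rw [← he, ContinuousLinearMap.inverse_equiv]
  simp

/-- the determinant in coordinates -/
lemma det_eq (B : ℂ →L[ℝ] ℂ) :
    B.det = (B 1).re * (B Complex.I).im - (B 1).im * (B Complex.I).re := by
  rw [ContinuousLinearMap.det, ← LinearMap.det_toMatrix Complex.basisOneI, Matrix.det_fin_two]
  simp [LinearMap.toMatrix_apply]
  ring

lemma dec (z : ℂ) : z = z.re • (1 : ℂ) + z.im • Complex.I := by
  apply Complex.ext <;> simp

lemma P_eq (A : ℂ →L[ℝ] ℂ) (P : ℂ →L[ℝ] ℝ) (u : ℂ) :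
    P (A.inverse u) = (grd A P).re * u.re + (grd A P).im * u.im := by
  conv_lhs => rw [dec u]
  rw [map_add, map_add, map_smul, map_smul, map_smul, map_smul]
  simp only [grd, smul_eq_mul]
  ring

lemma det_mul (A₀ A₁ : ℂ →L[ℝ] ℂ) (h0 : A₀.det ≠ 0) :
    A₁.det = (A₁ ∘L A₀.inverse).det * A₀.det := by
  have h : (A₁ : ℂ →ₗ[ℝ] ℂ) = ((A₁ ∘L A₀.inverse : ℂ →L[ℝ] ℂ) : ℂ →ₗ[ℝ] ℂ) ∘ₗ (A₀ : ℂ →ₗ[ℝ] ℂ) := by
    apply LinearMap.ext
    intro v
    simp [inv_l A₀ h0]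
  change LinearMap.det (A₁ : ℂ →ₗ[ℝ] ℂ) = _
  rw [h, LinearMap.det_comp]

lemma cs (g z : ℂ) : g.re * z.re + g.im * z.im ≤ ‖g‖ * ‖z‖ := by
  have h : (g.re * z.re + g.im * z.im) ^ 2 ≤ (‖g‖ * ‖z‖) ^ 2 := by
    rw [mul_pow, nsq, nsq]
    nlinarith [sq_nonneg (g.re * z.im - g.im * z.re)]
  exact le_trans (le_abs_self _) (abs_le_of_sq_le_sq h (by positivity))

theorem t_LinA : StLinA := by
  intro A₀ A₁ L h0 h1 hL hA
  have hB : ∀ w : ℂ, ‖A₁ (A₀.inverse w)‖ ≤ L * ‖w‖ := fun w => by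
    have := hA (A₀.inverse w)
    rwa [inv_r A₀ h0] at this
  constructor
  · rw [det_mul A₀ A₁ h0, abs_mul]
    apply mul_le_mul_of_nonneg_right _ (abs_nonneg _)
    rw [det_eq]
    have e1 := hB 1
    have e2 := hB Complex.I
    simp only [norm_one, Complex.norm_I, mul_one] at e1 e2
    simp only [ContinuousLinearMap.coe_comp', Function.comp_apply]
    set p := A₁ (A₀.inverse 1)
    set q := A₁ (A₀.inverse Complex.I)
    have f1 : p.re ^ 2 + p.im ^ 2 ≤ L ^ 2 := by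
      rw [← nsq]; exact pow_le_pow_left₀ (norm_nonneg _) e1 2
    have f2 : q.re ^ 2 + q.im ^ 2 ≤ L ^ 2 := by
      rw [← nsq]; exact pow_le_pow_left₀ (norm_nonneg _) e2 2
    rw [abs_le]
    constructor
    · nlinarith [sq_nonneg (p.re + q.im), sq_nonneg (p.im - q.re)]
    · nlinarith [sq_nonneg (p.re - q.im), sq_nonneg (p.im + q.re)]
  · intro P
    have e1 : ‖grd A₀ P‖ ^ 2 = P (A₀.inverse (grd A₀ P)) := by
      rw [P_eq, nsq]; ring
    have e2 : P (A₀.inverse (grd A₀ P)) = (grd A₁ P).re * (A₁ (A₀.inverse (grd A₀ P))).re +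
        (grd A₁ P).im * (A₁ (A₀.inverse (grd A₀ P))).im := by
      rw [← P_eq, inv_l A₁ h1]
    have e3 := hB (grd A₀ P)
    have e4 := cs (grd A₁ P) (A₁ (A₀.inverse (grd A₀ P)))
    have e5 : ‖grd A₀ P‖ ^ 2 ≤ ‖grd A₁ P‖ * (L * ‖grd A₀ P‖) := by
      rw [e1, e2]
      exact e4.trans (mul_le_mul_of_nonneg_left e3 (norm_nonneg _))
    rcases (norm_nonneg (grd A₀ P)).eq_or_lt with h | h
    · rw [← h]; positivity
    · have : ‖grd A₀ P‖ * ‖grd A₀ P‖ ≤ (L * ‖grd A₁ P‖) * ‖grd A₀ P‖ := by nlinarith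
      exact le_of_mul_le_mul_right this h

/-- the real inequality for the area -/
lemma core1 (K ε : ℝ) (hK : 0 ≤ K) (hε : 0 < ε) (hε1 : ε ≤ 1) (τ : ℝ)
    (hτ : |τ| < ε / (48 * (K + 1) ^ 2)) (a b c α β γ x : ℝ) (ha : |a| ≤ K) (hb : |b| ≤ K)
    (hc : |c| ≤ K) (hα : |α - 1 - τ * a| ≤ ε / 32 * |τ|) (hγ : |γ - 1 - τ * c| ≤ ε / 32 * |τ|)
    (hβ : |β - τ * b| ≤ ε / 32 * |τ|) (hx : 0 ≤ x) (hx2 : x ^ 2 = α * γ - β ^ 2) :
    |x - (1 + τ * (1 / 2 * (a + c)))| ≤ ε / 4 * |τ| := by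
  set s := |τ| with hs
  have hs0 : 0 ≤ s := abs_nonneg _
  have hK1 : (1 : ℝ) ≤ (K + 1) ^ 2 := by nlinarith
  have hsM : s * (48 * (K + 1) ^ 2) < ε := by
    rwa [lt_div_iff₀ (by positivity)] at hτ
  have hτa : |τ * a| ≤ s * K := by rw [abs_mul]; exact mul_le_mul_of_nonneg_left ha hs0
  have hτb : |τ * b| ≤ s * K := by rw [abs_mul]; exact mul_le_mul_of_nonneg_left hb hs0
  have hτc : |τ * c| ≤ s * K := by rw [abs_mul]; exact mul_le_mul_of_nonneg_left hc hs0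
  -- bounds of the entries
  set u := α - 1 with hu
  set v := γ - 1 with hv
  have hu1 : |u| ≤ s * (K + 1) := by
    have : |u| ≤ |u - τ * a| + |τ * a| := by
      have := abs_add_le (u - τ * a) (τ * a); simpa using this
    nlinarith
  have hv1 : |v| ≤ s * (K + 1) := by
    have : |v| ≤ |v - τ * c| + |τ * c| := by
      have := abs_add_le (v - τ * c) (τ * c); simpa using this
    nlinarith
  have hβ1 : |β| ≤ s * (K + 1) := by
    have : |β| ≤ |β - τ * b| + |τ * b| := by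
      have := abs_add_le (β - τ * b) (τ * b); simpa using this
    nlinarith
  have huv : |u * v| ≤ s ^ 2 * (K + 1) ^ 2 := by
    rw [abs_mul]
    calc |u| * |v| ≤ (s * (K + 1)) * (s * (K + 1)) :=
          mul_le_mul hu1 hv1 (abs_nonneg _) (by positivity)
      _ = _ := by ring
  have hbb : β ^ 2 ≤ s ^ 2 * (K + 1) ^ 2 := by
    rw [← sq_abs]
    calc |β| ^ 2 ≤ (s * (K + 1)) ^ 2 := pow_le_pow_left₀ (abs_nonneg _) hβ1 2
      _ = _ := by ring
  have hac : |τ * (1 / 2 * (a + c))| ≤ s * K := by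
    have : τ * (1 / 2 * (a + c)) = 1 / 2 * (τ * a) + 1 / 2 * (τ * c) := by ring
    rw [this, abs_le]
    rw [abs_le] at hτa hτc
    constructor <;> linarith [hτa.1, hτa.2, hτc.1, hτc.2]
  have hac2 : (τ * (1 / 2 * (a + c))) ^ 2 ≤ s ^ 2 * (K + 1) ^ 2 := by
    rw [← sq_abs]
    calc |τ * (1 / 2 * (a + c))| ^ 2 ≤ (s * K) ^ 2 := pow_le_pow_left₀ (abs_nonneg _) hac 2
      _ ≤ _ := by nlinarith [sq_nonneg s]
  set y := 1 + τ * (1 / 2 * (a + c)) with hy
  have hsK : s * K ≤ 1 / 48 := by nlinarith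
  have hy1 : 1 / 2 ≤ y := by
    rw [abs_le] at hac
    linarith [hac.1]
  have hs2 : s ^ 2 * (K + 1) ^ 2 ≤ ε / 48 * s := by nlinarith
  have hd : |x ^ 2 - y ^ 2| ≤ ε / 8 * s := by
    have e : x ^ 2 - y ^ 2 = (u - τ * a) + (v - τ * c) + u * v - β ^ 2 -
        (τ * (1 / 2 * (a + c))) ^ 2 := by
      rw [hx2, hy, hu, hv]; ring
    rw [e]
    rw [abs_le] at hα hγ huv ⊢
    have h0 := sq_nonneg β
    have h1 := sq_nonneg (τ * (1 / 2 * (a + c)))
    have h3 : 0 ≤ ε * s := by positivity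
    constructor <;> linarith [hα.1, hα.2, hγ.1, hγ.2, huv.1, huv.2]
  have e2 : |x ^ 2 - y ^ 2| = |x - y| * (x + y) := by
    rw [show x ^ 2 - y ^ 2 = (x - y) * (x + y) by ring, abs_mul, abs_of_nonneg (a := x + y)]
    linarith
  have e3 : |x - y| * (1 / 2) ≤ |x - y| * (x + y) :=
    mul_le_mul_of_nonneg_left (by linarith) (abs_nonneg _)
  linarith

/-- the real inequality for the Dirichlet density -/
lemma core2 (K ε : ℝ) (hK : 0 ≤ K) (hε : 0 < ε) (hε1 : ε ≤ 1) (τ : ℝ)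
    (hτ : |τ| < ε / (48 * (K + 1) ^ 2)) (a b c α β γ x : ℝ) (ha : |a| ≤ K) (hb : |b| ≤ K)
    (hc : |c| ≤ K) (hα : |α - 1 - τ * a| ≤ ε / 32 * |τ|) (hγ : |γ - 1 - τ * c| ≤ ε / 32 * |τ|)
    (hβ : |β - τ * b| ≤ ε / 32 * |τ|) (hx : 0 < x) (hx2 : x ^ 2 = α * γ - β ^ 2)
    (w₁ w₂ G H : ℝ) (hG : x ^ 2 * G = γ * w₁ ^ 2 - 2 * β * (w₁ * w₂) + α * w₂ ^ 2)
    (hH : H = a * w₁ ^ 2 + 2 * b * (w₁ * w₂) + c * w₂ ^ 2)
    (hHK : |H| ≤ K * (w₁ ^ 2 + w₂ ^ 2)) :
    x * G ≤ (w₁ ^ 2 + w₂ ^ 2) + τ * (1 / 2 * (a + c) * (w₁ ^ 2 + w₂ ^ 2) - H) +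
      ε * |τ| * (w₁ ^ 2 + w₂ ^ 2) := by
  have h1 := core1 K ε hK hε hε1 τ hτ a b c α β γ x ha hb hc hα hγ hβ hx.le hx2
  set n := w₁ ^ 2 + w₂ ^ 2 with hn
  set s := |τ| with hs
  have hs0 : 0 ≤ s := abs_nonneg _
  have hn0 : 0 ≤ n := by positivity
  have hsM : s * (48 * (K + 1) ^ 2) < ε := by
    rwa [lt_div_iff₀ (by positivity)] at hτ
  set T := 1 / 2 * (a + c) with hT
  have hT1 : |T| ≤ K := by
    rw [abs_le] at ha hc ⊢
    constructor <;> linarith [ha.1, ha.2, hc.1, hc.2]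
  set Q := T * n - H with hQ
  have hQ1 : |Q| ≤ 2 * K * n := by
    have : |T * n| ≤ K * n := by
      rw [abs_mul, abs_of_nonneg hn0]; exact mul_le_mul_of_nonneg_right hT1 hn0
    rw [abs_le] at this hHK ⊢
    constructor <;> linarith [this.1, this.2, hHK.1, hHK.2]
  have hτQ : |τ * Q| ≤ s * (2 * K * n) := by
    rw [abs_mul]; exact mul_le_mul_of_nonneg_left hQ1 hs0
  have hτT : |τ * T| ≤ s * K := by
    rw [abs_mul]; exact mul_le_mul_of_nonneg_left hT1 hs0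
  have hsK : s * K ≤ 1 / 48 := by nlinarith
  -- the quadratic form
  have hw12 : |2 * (w₁ * w₂)| ≤ n := by
    rw [abs_le]
    constructor <;> nlinarith [sq_nonneg (w₁ + w₂), sq_nonneg (w₁ - w₂)]
  have hN : γ * w₁ ^ 2 - 2 * β * (w₁ * w₂) + α * w₂ ^ 2 ≤
      n + τ * T * n + τ * Q + ε / 16 * s * n := by
    have e : γ * w₁ ^ 2 - 2 * β * (w₁ * w₂) + α * w₂ ^ 2 =
        n + τ * T * n + τ * Q + ((γ - 1 - τ * c) * w₁ ^ 2 + (α - 1 - τ * a) * w₂ ^ 2 -
          (β - τ * b) * (2 * (w₁ * w₂))) := by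
      rw [hQ, hH, hT, hn]; ring
    rw [e]
    have g1 : (γ - 1 - τ * c) * w₁ ^ 2 ≤ (ε / 32 * s) * w₁ ^ 2 :=
      mul_le_mul_of_nonneg_right ((le_abs_self _).trans hγ) (sq_nonneg _)
    have g2 : (α - 1 - τ * a) * w₂ ^ 2 ≤ (ε / 32 * s) * w₂ ^ 2 :=
      mul_le_mul_of_nonneg_right ((le_abs_self _).trans hα) (sq_nonneg _)
    have g3 : -((β - τ * b) * (2 * (w₁ * w₂))) ≤ (ε / 32 * s) * n := by
      refine (neg_le_abs _).trans ?_
      rw [abs_mul]
      exact mul_le_mul hβ hw12 (abs_nonneg _) (by positivity)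
    have g4 : (ε / 32 * s) * w₁ ^ 2 + (ε / 32 * s) * w₂ ^ 2 = (ε / 32 * s) * n := by
      rw [hn]; ring
    linarith
  -- the right side
  set R := n + τ * Q + ε * s * n with hR
  have hR0 : 0 ≤ R := by
    rw [abs_le] at hτQ
    have : s * (2 * K * n) ≤ 1 / 24 * n := by nlinarith
    have h3 : 0 ≤ ε * s * n := by positivity
    linarith [hτQ.1]
  have hRu : R ≤ 3 * n := by
    rw [abs_le] at hτQ
    have h4 : s * (2 * K * n) ≤ 1 / 24 * n := by nlinarith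
    have hs1 : s ≤ 1 := by nlinarith
    have h5 : ε * s * n ≤ 1 * 1 * n := by
      apply mul_le_mul_of_nonneg_right _ hn0
      exact mul_le_mul hε1 hs1 hs0 (by norm_num)
    linarith [hτQ.2]
  have hxl : 1 + τ * T - ε / 4 * s ≤ x := by
    rw [abs_le] at h1
    linarith [h1.1]
  have hprod : (1 + τ * T - ε / 4 * s) * R ≤ x * R := mul_le_mul_of_nonneg_right hxl hR0
  have hfin : n + τ * T * n + τ * Q + ε / 16 * s * n ≤ (1 + τ * T - ε / 4 * s) * R := by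
    have e : (1 + τ * T - ε / 4 * s) * R = n + τ * T * n + τ * Q + ε * s * n +
        (τ * T) * (τ * Q) + (τ * T) * (ε * s * n) - ε / 4 * s * R := by
      rw [hR]; ring
    rw [e]
    have k1 : |(τ * T) * (τ * Q)| ≤ (s * K) * (s * (2 * K * n)) := by
      rw [abs_mul]; exact mul_le_mul hτT hτQ (abs_nonneg _) (by positivity)
    have k2 : |(τ * T) * (ε * s * n)| ≤ (1 / 48) * (ε * s * n) := by
      rw [abs_mul, abs_of_nonneg (a := ε * s * n) (by positivity)]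
      exact mul_le_mul_of_nonneg_right (hτT.trans hsK) (by positivity)
    have k3 : (s * K) * (s * (2 * K * n)) ≤ 1 / 24 * (ε * s * n) := by
      have : s * K ^ 2 * 48 ≤ ε := by nlinarith
      have h7 : 0 ≤ s * n := by positivity
      nlinarith
    have k4 : ε / 4 * s * R ≤ 3 / 4 * (ε * s * n) := by
      have : ε / 4 * s * R ≤ ε / 4 * s * (3 * n) :=
        mul_le_mul_of_nonneg_left hRu (by positivity)
      linarith
    rw [abs_le] at k1 k2
    have h3 : 0 ≤ ε * s * n := by positivity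
    linarith [k1.1, k2.1]
  have hfin2 : x * (x * G) ≤ x * R := by
    calc x * (x * G) = x ^ 2 * G := by ring
      _ ≤ _ := by rw [hG]; exact hN.trans (hfin.trans hprod)
  have := le_of_mul_le_mul_left hfin2 hx
  rw [hR] at this
  linarith

theorem t_LinB : StLinB := by
  intro K ε hK hε
  set e := min ε 1 with he
  have he0 : 0 < e := lt_min hε one_pos
  have he1 : e ≤ 1 := min_le_right _ _
  have heε : e ≤ ε := min_le_left _ _
  refine ⟨e / (48 * (K + 1) ^ 2), e / 32, by positivity, by positivity, ?_⟩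
  intro τ hτ A₀ A₁ h0 h1 h hsym hb hA
  intro t
  have key : ∀ w : ℂ, |‖A₁ (A₀.inverse w)‖ ^ 2 - ‖w‖ ^ 2 - τ * h (A₀.inverse w) (A₀.inverse w)| ≤
      e / 32 * |τ| * ‖w‖ ^ 2 := fun w => by
    have := hA (A₀.inverse w)
    rwa [inv_r A₀ h0] at this
  have keyb : ∀ w : ℂ, |h (A₀.inverse w) (A₀.inverse w)| ≤ K * ‖w‖ ^ 2 := fun w => by
    have := hb (A₀.inverse w)
    rwa [inv_r A₀ h0] at this
  have hquad : ∀ w : ℂ, h (A₀.inverse w) (A₀.inverse w) =
      h (A₀.inverse 1) (A₀.inverse 1) * w.re ^ 2 +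
      2 * h (A₀.inverse 1) (A₀.inverse Complex.I) * (w.re * w.im) +
      h (A₀.inverse Complex.I) (A₀.inverse Complex.I) * w.im ^ 2 := fun w => by
    have e0 : A₀.inverse w = w.re • A₀.inverse 1 + w.im • A₀.inverse Complex.I := by
      conv_lhs => rw [dec w]
      rw [map_add, map_smul, map_smul]
    rw [e0]
    simp only [map_add, map_smul, ContinuousLinearMap.add_apply, ContinuousLinearMap.smul_apply,
      smul_eq_mul]
    rw [hsym (A₀.inverse Complex.I) (A₀.inverse 1)]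
    ring
  have hA1 : ∀ w : ℂ, A₁ (A₀.inverse w) = w.re • A₁ (A₀.inverse 1) +
      w.im • A₁ (A₀.inverse Complex.I) := fun w => by
    conv_lhs => rw [dec w]
    rw [map_add, map_smul, map_smul, map_add, map_smul, map_smul]
  set a := h (A₀.inverse 1) (A₀.inverse 1) with ha
  set b := h (A₀.inverse 1) (A₀.inverse Complex.I) with hbb
  set c := h (A₀.inverse Complex.I) (A₀.inverse Complex.I) with hc
  set p := A₁ (A₀.inverse 1) with hp
  set q := A₁ (A₀.inverse Complex.I) with hq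
  have hnsq : ∀ w : ℂ, ‖A₁ (A₀.inverse w)‖ ^ 2 = (p.re ^ 2 + p.im ^ 2) * w.re ^ 2 +
      2 * (p.re * q.re + p.im * q.im) * (w.re * w.im) + (q.re ^ 2 + q.im ^ 2) * w.im ^ 2 :=
    fun w => by
      rw [hA1 w, nsq]
      simp only [Complex.add_re, Complex.add_im, Complex.smul_re, Complex.smul_im, smul_eq_mul]
      ring
  set α := p.re ^ 2 + p.im ^ 2 with hαd
  set β := p.re * q.re + p.im * q.im with hβd
  set γ := q.re ^ 2 + q.im ^ 2 with hγd
  -- the entries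
  have ha1 : |a| ≤ K := by
    have := keyb 1
    rw [hquad 1] at this
    simpa using this
  have hc1 : |c| ≤ K := by
    have := keyb Complex.I
    rw [hquad Complex.I] at this
    simpa using this
  have hb1 : |b| ≤ K := by
    have k1 := keyb ⟨1, 1⟩
    have k2 := keyb ⟨1, -1⟩
    rw [hquad, nsq] at k1 k2
    simp only at k1 k2
    rw [abs_le] at k1 k2 ⊢
    constructor <;> linarith [k1.1, k1.2, k2.1, k2.2]
  have hα1 : |α - 1 - τ * a| ≤ e / 32 * |τ| := by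
    have := key 1
    rw [hquad 1, hnsq 1, nsq] at this
    simpa using this
  have hγ1 : |γ - 1 - τ * c| ≤ e / 32 * |τ| := by
    have := key Complex.I
    rw [hquad Complex.I, hnsq Complex.I, nsq] at this
    simpa using this
  have hβ1 : |β - τ * b| ≤ e / 32 * |τ| := by
    have k1 := key ⟨1, 1⟩
    have k2 := key ⟨1, -1⟩
    rw [hquad, hnsq, nsq] at k1 k2
    simp only at k1 k2
    rw [abs_le] at k1 k2 ⊢
    constructor <;> nlinarith [k1.1, k1.2, k2.1, k2.2]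
  -- the determinant
  have hdet : A₁.det = (p.re * q.im - p.im * q.re) * A₀.det := by
    rw [det_mul A₀ A₁ h0, det_eq]
    rfl
  set d := p.re * q.im - p.im * q.re with hd
  have hd0 : d ≠ 0 := by
    intro h
    rw [h, zero_mul] at hdet
    exact h1 hdet
  have hx2 : |d| ^ 2 = α * γ - β ^ 2 := by
    rw [sq_abs, hd, hαd, hβd, hγd]; ring
  have hdx : |A₁.det| = |A₀.det| * |d| := by rw [hdet, abs_mul, mul_comm]
  have ht : t = a + c := rfl
  have c1 := core1 K e hK he0 he1 τ hτ a b c α β γ |d| ha1 hb1 hc1 hα1 hγ1 hβ1 (abs_nonneg _) hx2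
  have hτ0 : 0 ≤ |τ| := abs_nonneg _
  constructor
  · rw [hdx, ← mul_sub, abs_mul, abs_abs, ht]
    rw [mul_comm]
    apply mul_le_mul_of_nonneg_right _ (abs_nonneg _)
    refine c1.trans ?_
    apply mul_le_mul_of_nonneg_right _ hτ0
    linarith
  · intro P
    set g := grd A₁ P with hg
    set w := grd A₀ P with hw
    have w1 : w.re = g.re * p.re + g.im * p.im := by
      have : w.re = P (A₀.inverse 1) := rfl
      rw [this, hg, ← P_eq, hp, inv_l A₁ h1]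
    have w2 : w.im = g.re * q.re + g.im * q.im := by
      have : w.im = P (A₀.inverse Complex.I) := rfl
      rw [this, hg, ← P_eq, hq, inv_l A₁ h1]
    have hG : |d| ^ 2 * ‖g‖ ^ 2 = γ * w.re ^ 2 - 2 * β * (w.re * w.im) + α * w.im ^ 2 := by
      rw [sq_abs, nsq, w1, w2, hd, hαd, hβd, hγd]; ring
    have hHK : |h (A₀.inverse w) (A₀.inverse w)| ≤ K * (w.re ^ 2 + w.im ^ 2) := by
      have := keyb w
      rwa [nsq] at this
    have c2 := core2 K e hK he0 he1 τ hτ a b c α β γ |d| ha1 hb1 hc1 hα1 hγ1 hβ1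
      (abs_pos.2 hd0) hx2 w.re w.im (‖g‖ ^ 2) (h (A₀.inverse w) (A₀.inverse w)) hG (hquad w) hHK
    rw [← nsq w] at c2
    rw [hdx, mul_assoc]
    apply mul_le_mul_of_nonneg_left _ (abs_nonneg _)
    refine c2.trans ?_
    rw [ht]
    have : e * |τ| * ‖w‖ ^ 2 ≤ ε * |τ| * ‖w‖ ^ 2 := by
      apply mul_le_mul_of_nonneg_right _ (by positivity)
      exact mul_le_mul_of_nonneg_right heε hτ0
    linarith

end Pool.Agent.Run7.h888.EF
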